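import Pool.Agent.K7.H21.Aut6.Max

set_option autoImplicit false

/-!
# MP_c7a479_co: automorphisms of even order of variational sets

`IsPermutationCube`, `IsVariationalSet` are the notions of the problem file
(`Pool.Agent.H430R2.PermCubes.Defs`).  An automorphism of the family `C` (`IsAut C p q`) permutes
the symbols of every coordinate (by `p i`) and the symbols of every cube (by `q o`), and
`autGroup C` is the group of all of them.

1. Let `m ≥ 2`, `n ≡ 2 (mod 4)`.  For an automorphism `(p, q)` of order two of a variational set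
   of `k ≥ m` cubes either all the `p i` and `q o` have the same even number `f` of fixed symbols,
   `4 ≤ f < n / 2`, or the number of the coordinates without fixed symbols is odd, no `q o` has a
   fixed symbol and, if `k > m`, then `m` is odd.
2. Order six: the automorphism group of `k ≥ m` cubes has order `2 ^ a * 3 ^ b * 5 ^ c` with
   `a, c ≤ 1`; for more than `m` cubes and even `m` the order is odd.
3. Order six: an automorphism that fixes a cell and is not trivial has order five, and every `p i`
   and every `q o` has exactly one fixed symbol.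
4. Order six, all `m ≥ 4`: the largest number of cubes of a variational set with an automorphism
   group of even order is `m` for even `m` and `m + 1` for odd `m`.
-/

namespace Pool.Agent.Results.MP_c7a479_co.EvenSymmetries

open Pool.Agent.H430R2.PermCubes Pool.Agent.K7.H21.Aut6

theorem result :
    (∀ m n k : ℕ, 2 ≤ m → m ≤ k → n % 4 = 2 →
      ∀ (C : Fin k → (Fin m → Fin n) → Fin n) (p : Fin m → Equiv.Perm (Fin n))
        (q : Fin k → Equiv.Perm (Fin n)),
      IsVariationalSet m n k C → IsAut C p q → p ^ 2 = 1 → p ≠ 1 →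
        (∃ f : ℕ, Even f ∧ 4 ≤ f ∧ 2 * f < n ∧
          (∀ i, (Finset.univ.filter fun s => p i s = s).card = f) ∧
          (∀ o, (Finset.univ.filter fun s => q o s = s).card = f)) ∨
        (Odd (Finset.univ.filter fun i : Fin m => ∀ s, p i s ≠ s).card ∧
          (∀ o s, q o s ≠ s) ∧ (m < k → Odd m))) ∧
    (∀ m k : ℕ, 2 ≤ m → m ≤ k → ∀ C : Fin k → (Fin m → Fin 6) → Fin 6,
      IsVariationalSet m 6 k C →
        (∃ a b c : ℕ, Nat.card (autGroup C) = 2 ^ a * 3 ^ b * 5 ^ c ∧ a ≤ 1 ∧ c ≤ 1 ∧
          (Even m → m < k → a = 0)) ∧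
        ∀ (p : Fin m → Equiv.Perm (Fin 6)) (q : Fin k → Equiv.Perm (Fin 6)),
          IsAut C p q → p ≠ 1 → (∃ x : Fin m → Fin 6, ∀ i, p i (x i) = x i) →
            orderOf p = 5 ∧
            (∀ i, (Finset.univ.filter fun s => p i s = s).card = 1) ∧
            (∀ o, (Finset.univ.filter fun s => q o s = s).card = 1)) ∧
    (∀ m : ℕ, 4 ≤ m →
      IsGreatest {k : ℕ | ∃ C : Fin k → (Fin m → Fin 6) → Fin 6, IsVariationalSet m 6 k C ∧
        Even (Nat.card (autGroup C))} (if Even m then m else m + 1)) := by
  refine ⟨?_, ?_, ?_⟩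
  · intro m n k hm hk hn C p q hC hA hp2 hp
    exact involution hm hk hn hC hA (invol_apply hp2) hp
  · intro m k hm hk C hC
    refine ⟨card_form hm hk hC, ?_⟩
    intro p q hA hp hz
    obtain ⟨h1, h2⟩ := six_fixed hm hk hC hA hp hz
    exact ⟨order_five hm hk hC hA hp hz, h1, h2⟩
  · intro m hm
    exact isGreatest_even hm

end Pool.Agent.Results.MP_c7a479_co.EvenSymmetries
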