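import Pool.Agent.K7.H21.Inv.Six

set_option autoImplicit false

/-!
# MP_c7a479_co: involutions of variational sets that permute coordinates and cubes

`IsPermutationCube`, `IsVariationalSet` are the notions of the problem file
(`Pool.Agent.H430R2.PermCubes.Defs`).  An involution `(π, p, ρ, q)` of a family of cubes sends the
symbol `s` of the coordinate `i` to the symbol `p i s` of the coordinate `π i` (and back) and turns
the symbol `s` of the cube `o` into the symbol `q o s` of the cube `ρ o`.

1. `n ≡ 2 (mod 4)`, `m + 1` cubes, some cube fixed: either the number of the fixed cubes is one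
   more than the number of the fixed coordinates, some cell is fixed and all fixed coordinates and
   fixed cubes have the same even positive number of fixed symbols; or `m` is odd, the number of
   the fixed coordinates without fixed symbols is odd and no fixed cube has a fixed symbol.
2. Order six, `m` even: every involution that moves a cell swaps two coordinates at least, and
   swaps as many pairs of cubes as pairs of coordinates.
-/

namespace Pool.Agent.Results.MP_c7a479_co.SwappedCoordinates

open Pool.Agent.H430R2.PermCubes Pool.Agent.K7.H21.Inv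

/-- `(π, p, ρ, q)` is an involution of the family `C`; the image of the cell `x` is the cell
`move π p x`, whose symbol in the coordinate `i` is `p (π i) (x (π i))` -/
def IsInvolution {m n k : ℕ} (C : Fin k → (Fin m → Fin n) → Fin n) (π : Fin m → Fin m)
    (p : Fin m → Equiv.Perm (Fin n)) (ρ : Fin k → Fin k) (q : Fin k → Equiv.Perm (Fin n)) : Prop :=
  (∀ i, π (π i) = i) ∧ (∀ i s, p (π i) (p i s) = s) ∧
    ∀ o x, C (ρ o) (move π p x) = q o (C o x)

theorem result :
    (∀ m n : ℕ, 2 ≤ m → n % 4 = 2 →
      ∀ (C : Fin (m + 1) → (Fin m → Fin n) → Fin n) (π : Fin m → Fin m)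
        (p : Fin m → Equiv.Perm (Fin n)) (ρ : Fin (m + 1) → Fin (m + 1))
        (q : Fin (m + 1) → Equiv.Perm (Fin n)),
      IsVariationalSet m n (m + 1) C → IsInvolution C π p ρ q → (Even m ∨ ∃ o, ρ o = o) →
        ((∃ x, move π p x = x) ∧
          (Finset.univ.filter fun o => ρ o = o).card =
            (Finset.univ.filter fun i => π i = i).card + 1 ∧
          ∃ f, Even f ∧ 2 ≤ f ∧
            (∀ i, π i = i → (Finset.univ.filter fun s => p i s = s).card = f) ∧
            (∀ o, ρ o = o → (Finset.univ.filter fun s => q o s = s).card = f) ∧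
            (2 ≤ (Finset.univ.filter fun i => π i = i).card → f = n ∨ 2 * f < n)) ∨
        (Odd m ∧ Odd (Finset.univ.filter fun i => π i = i ∧ ∀ s, p i s ≠ s).card ∧
          ∀ o, ρ o = o → ∀ s, q o s ≠ s)) ∧
    (∀ m : ℕ, 2 ≤ m → Even m →
      ∀ (C : Fin (m + 1) → (Fin m → Fin 6) → Fin 6) (π : Fin m → Fin m)
        (p : Fin m → Equiv.Perm (Fin 6)) (ρ : Fin (m + 1) → Fin (m + 1))
        (q : Fin (m + 1) → Equiv.Perm (Fin 6)),
      IsVariationalSet m 6 (m + 1) C → IsInvolution C π p ρ q → (∃ x, move π p x ≠ x) →
        (∃ i, π i ≠ i) ∧ (∃ o, ρ o ≠ o) ∧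
        (Finset.univ.filter fun o => ρ o ≠ o).card = (Finset.univ.filter fun i => π i ≠ i).card ∧
        ∃ f, (f = 2 ∨ f = 4 ∨ f = 6) ∧ ((∃ i, π i = i) → f ≠ 4) ∧
          (∀ i, π i = i → (Finset.univ.filter fun s => p i s = s).card = f) ∧
          (∀ o, ρ o = o → (Finset.univ.filter fun s => q o s = s).card = f)) := by
  refine ⟨?_, ?_⟩
  · rintro m n hm hn C π p ρ q hC ⟨hπ, hp, h⟩ hfix
    obtain ⟨hρ, hq⟩ := cubes_invol hm (by omega) hC hπ hp h
    exact dichotomy hn hC hπ hp hρ hq h (hfix.elim (fun he => exists_fixed_cube he hρ) id)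
  · rintro m hm hme C π p ρ q hC ⟨hπ, hp, h⟩ ⟨x, hx⟩
    obtain ⟨hρ, hq⟩ := cubes_invol hm (by norm_num) hC hπ hp h
    have h1 : ∃ i, π i ≠ i := six_swaps hm hme hC hπ hp h (fun h' => hx (h' x))
    have e1 := Finset.card_filter_add_card_filter_not (s := (Finset.univ : Finset (Fin m)))
      (fun i => π i = i)
    have e2 := Finset.card_filter_add_card_filter_not (s := (Finset.univ : Finset (Fin (m + 1))))
      (fun o => ρ o = o)
    rw [Finset.card_univ, Fintype.card_fin] at e1 e2
    have c1 := card_pairs hπ
    rw [Fintype.card_fin] at c1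
    rcases dichotomy (by norm_num) hC hπ hp hρ hq h (exists_fixed_cube hme hρ) with
      ⟨-, hcard, f, hfe, hf2, hfi, hfo, hf⟩ | ⟨hodd, -⟩
    · have h2 : (Finset.univ.filter fun o => ρ o ≠ o).card =
          (Finset.univ.filter fun i => π i ≠ i).card := by
        have e1' : (Finset.univ.filter fun i => π i = i).card +
          (Finset.univ.filter fun i => π i ≠ i).card = m := e1
        have e2' : (Finset.univ.filter fun o => ρ o = o).card +
          (Finset.univ.filter fun o => ρ o ≠ o).card = m + 1 := e2
        omega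
      have h3 : ∃ o, ρ o ≠ o := by
        obtain ⟨i, hi⟩ := h1
        have : 0 < (Finset.univ.filter fun o => ρ o ≠ o).card := by
          rw [h2, Finset.card_pos]
          exact ⟨i, by simpa using hi⟩
        obtain ⟨o, ho⟩ := Finset.card_pos.1 this
        exact ⟨o, by simpa using ho⟩
      have h4 : f ≤ 6 := by
        obtain ⟨o, ho⟩ := exists_fixed_cube hme hρ
        rw [← hfo o ho]
        have := Finset.card_le_univ (Pool.Agent.K7.H21.Aut6.fixes (q o))
        rwa [Fintype.card_fin] at this
      obtain ⟨r, hr⟩ := hfe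
      refine ⟨h1, h3, h2, f, by omega, ?_, hfi, hfo⟩
      rintro ⟨i, hi⟩ h5
      have h6 : 0 < (Finset.univ.filter fun i => π i = i).card :=
        Finset.card_pos.2 ⟨i, by simpa using hi⟩
      obtain ⟨s, hs⟩ := hme
      have := hf (by omega)
      omega
    · exact absurd hodd (Nat.not_odd_iff_even.2 hme)

end Pool.Agent.Results.MP_c7a479_co.SwappedCoordinates
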